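import Pool.Agent.CLF.Final

/-!
# MP_3b64ec_ag: no curve of genus 9, 10, 11 or 12 has first Clifford index 3 and third
Clifford index 8/3

By the facts listed in the problem file a curve with `Cliff_1 = 3` and `Cliff_3 = 8/3` must have
genus between 9 and 12, so the answer to Q1 is negative.

The curve is given by its function field `F`, an arbitrary finite extension of `ℂ(x)`; see
`Pool/Agent/CLF/Defs.lean` for the definitions.
-/

theorem Pool.Agent.Results.MP_3b64ec_ag.NoSuchCurve.result.{u} (F : Type u) [Field F]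
    [Algebra ℂ F] [Algebra (RatFunc ℂ) F] [IsScalarTower ℂ (RatFunc ℂ) F]
    [FiniteDimensional (RatFunc ℂ) F]
    (h9 : 9 ≤ CLF.genus (CLF.rings F)) (h12 : CLF.genus (CLF.rings F) ≤ 12) :
    ¬ (IsLeast (CLF.cliffSet (CLF.rings F) 1) 3 ∧
        IsLeast (CLF.cliffSet (CLF.rings F) 3) (8 / 3)) :=
  CLF.main F h9 h12
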